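import Pool.Agent.N979.P1.Stm
import Pool.Agent.N526.CP.SPH

/-!
Project P1, leaf JZER: the form of the calibration near the origin.
-/

set_option autoImplicit false

open MeasureTheory Metric Set Filter Topology InnerProductGeometry Matrix

namespace Pool.Agent.N300.P1_JZER

open Pool.Agent.H241R3.FV Pool.Agent.N526.CP Pool.Agent.N979.P1

theorem cont_co (i : Fin 2) : Continuous (fun θ : Sph 2 => (θ : E 2) i) := by
  have := SPH.cont_ip (EuclideanSpace.single i (1 : ℝ))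
  simpa only [SPH.ip_single] using this

theorem sq_sum (θ : Sph 2) : (θ : E 2) 0 ^ 2 + (θ : E 2) 1 ^ 2 = 1 := by
  have h4 := norm_sph θ
  have h5 : ‖(θ : E 2)‖ ^ 2 = ∑ i, ‖(θ : E 2) i‖ ^ 2 := EuclideanSpace.norm_sq_eq _
  rw [h4, one_pow, Fin.sum_univ_two, Real.norm_eq_abs, Real.norm_eq_abs, sq_abs, sq_abs] at h5
  exact h5.symm

theorem i01 : ∫ θ : Sph 2, (θ : E 2) 0 * (θ : E 2) 1 ∂(sg 2) = 0 := by
  have h := SPH.Q_orth (d := 1) (fun _ => 1) 0 (EuclideanSpace.single 0 (1 : ℝ))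
    (EuclideanSpace.single 1 (1 : ℝ)) (inner_zero_right _)
    (by rw [EuclideanSpace.inner_single_left]; simp)
  unfold SPH.Q at h
  simp only [SPH.ip_single, one_mul] at h
  exact h

theorem i00 : ∫ θ : Sph 2, (θ : E 2) 0 ^ 2 ∂(sg 2) = 1 / 2 ∧
    ∫ θ : Sph 2, (θ : E 2) 1 ^ 2 ∂(sg 2) = 1 / 2 := by
  have := SPH.prob 1
  have h := SPH.Q_swap (d := 1) (fun _ => 1) 0 (EuclideanSpace.single 0 (1 : ℝ))
    (EuclideanSpace.single 1 (1 : ℝ)) (inner_zero_right _) (inner_zero_right _) (by simp)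
  unfold SPH.Q at h
  simp only [SPH.ip_single, one_mul, ← sq] at h
  have h1 : ∫ θ : Sph 2, ((θ : E 2) 0 ^ 2 + (θ : E 2) 1 ^ 2) ∂(sg 2) = 1 := by
    simp_rw [sq_sum]
    simp
  have j0 : Integrable (fun θ : Sph 2 => (θ : E 2) 0 ^ 2) (sg 2) :=
    SPH.integrable_cont (n := 1) _ ((cont_co 0).pow 2)
  have j1 : Integrable (fun θ : Sph 2 => (θ : E 2) 1 ^ 2) (sg 2) :=
    SPH.integrable_cont (n := 1) _ ((cont_co 1).pow 2)
  rw [integral_add j0 j1] at h1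
  constructor <;> linarith

/-- Bessel inequality -/
theorem bes (f : Sph 2 → ℝ) (hm : Measurable f) (hb : ∀ᵐ θ ∂(sg 2), |f θ| ≤ 1) :
    2 * ((∫ θ : Sph 2, (θ : E 2) 0 * f θ ∂(sg 2)) ^ 2 +
      (∫ θ : Sph 2, (θ : E 2) 1 * f θ ∂(sg 2)) ^ 2) ≤ ∫ θ, f θ ^ 2 ∂(sg 2) := by
  have := SPH.prob 1
  set p := ∫ θ : Sph 2, (θ : E 2) 0 * f θ ∂(sg 2) with hp
  set q := ∫ θ : Sph 2, (θ : E 2) 1 * f θ ∂(sg 2) with hq
  have hint : ∀ (g : Sph 2 → ℝ), Measurable g → (∀ᵐ θ ∂(sg 2), |g θ| ≤ 1) →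
      Integrable g (sg 2) := by
    intro g hg hgb
    exact Integrable.of_bound hg.aestronglyMeasurable 1 (by simpa only [Real.norm_eq_abs] using hgb)
  have hco : ∀ (i : Fin 2) (θ : Sph 2), |(θ : E 2) i| ≤ 1 := by
    intro i θ
    have := sq_sum θ
    rw [← sq_le_one_iff_abs_le_one]
    fin_cases i
    · show (θ : E 2) 0 ^ 2 ≤ 1
      nlinarith [sq_nonneg ((θ : E 2) 1)]
    · show (θ : E 2) 1 ^ 2 ≤ 1
      nlinarith [sq_nonneg ((θ : E 2) 0)]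
  have hif : ∀ i : Fin 2, Integrable (fun θ : Sph 2 => (θ : E 2) i * f θ) (sg 2) := by
    intro i
    refine hint _ ((cont_co i).measurable.mul hm) ?_
    filter_upwards [hb] with θ hθ
    rw [abs_mul]
    exact mul_le_one₀ (hco i θ) (abs_nonneg _) hθ
  have hf2 : Integrable (fun θ : Sph 2 => f θ ^ 2) (sg 2) := by
    refine hint _ (hm.pow_const 2) ?_
    filter_upwards [hb] with θ hθ
    rw [abs_pow]
    exact pow_le_one₀ (abs_nonneg _) hθ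
  have h00 : Integrable (fun θ : Sph 2 => (θ : E 2) 0 ^ 2) (sg 2) :=
    SPH.integrable_cont (n := 1) _ ((cont_co 0).pow 2)
  have h11 : Integrable (fun θ : Sph 2 => (θ : E 2) 1 ^ 2) (sg 2) :=
    SPH.integrable_cont (n := 1) _ ((cont_co 1).pow 2)
  have h01 : Integrable (fun θ : Sph 2 => (θ : E 2) 0 * (θ : E 2) 1) (sg 2) :=
    SPH.integrable_cont (n := 1) _ ((cont_co 0).mul (cont_co 1))
  have key : 0 ≤ ∫ θ : Sph 2, (f θ - 2 * p * (θ : E 2) 0 - 2 * q * (θ : E 2) 1) ^ 2 ∂(sg 2) :=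
    integral_nonneg fun θ => sq_nonneg _
  have hex : ∀ θ : Sph 2, (f θ - 2 * p * (θ : E 2) 0 - 2 * q * (θ : E 2) 1) ^ 2 =
      f θ ^ 2 + (-(4 * p)) * ((θ : E 2) 0 * f θ) + (-(4 * q)) * ((θ : E 2) 1 * f θ) +
      (4 * p ^ 2) * ((θ : E 2) 0 ^ 2) + (4 * q ^ 2) * ((θ : E 2) 1 ^ 2) +
      (8 * p * q) * ((θ : E 2) 0 * (θ : E 2) 1) := by
    intro θ
    ring
  simp_rw [hex] at key
  have e1 : Integrable (fun θ : Sph 2 => f θ ^ 2 + (-(4 * p)) * ((θ : E 2) 0 * f θ)) (sg 2) :=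
    hf2.add ((hif 0).const_mul _)
  have e2 : Integrable (fun θ : Sph 2 => f θ ^ 2 + (-(4 * p)) * ((θ : E 2) 0 * f θ) +
      (-(4 * q)) * ((θ : E 2) 1 * f θ)) (sg 2) := e1.add ((hif 1).const_mul _)
  have e3 : Integrable (fun θ : Sph 2 => f θ ^ 2 + (-(4 * p)) * ((θ : E 2) 0 * f θ) +
      (-(4 * q)) * ((θ : E 2) 1 * f θ) + (4 * p ^ 2) * ((θ : E 2) 0 ^ 2)) (sg 2) :=
    e2.add (h00.const_mul _)
  have e4 : Integrable (fun θ : Sph 2 => f θ ^ 2 + (-(4 * p)) * ((θ : E 2) 0 * f θ) +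
      (-(4 * q)) * ((θ : E 2) 1 * f θ) + (4 * p ^ 2) * ((θ : E 2) 0 ^ 2) +
      (4 * q ^ 2) * ((θ : E 2) 1 ^ 2)) (sg 2) := e3.add (h11.const_mul _)
  rw [integral_add e4 (h01.const_mul _), integral_add e3 (h11.const_mul _),
    integral_add e2 (h00.const_mul _), integral_add e1 ((hif 1).const_mul _),
    integral_add hf2 ((hif 0).const_mul _), integral_const_mul, integral_const_mul,
    integral_const_mul, integral_const_mul, integral_const_mul, ← hp, ← hq, i01, i00.1, i00.2]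
    at key
  nlinarith [key]

theorem dt_le (a : Sph 2 → E 2) (hm : Measurable a) (hb : ∀ᵐ θ ∂(sg 2), ‖a θ‖ ≤ 1) :
    4 * |(∫ θ : Sph 2, (θ : E 2) 0 * a θ 0 ∂(sg 2)) * (∫ θ : Sph 2, (θ : E 2) 1 * a θ 1 ∂(sg 2)) -
      (∫ θ : Sph 2, (θ : E 2) 0 * a θ 1 ∂(sg 2)) *
        (∫ θ : Sph 2, (θ : E 2) 1 * a θ 0 ∂(sg 2))| ≤ 1 := by
  have := SPH.prob 1
  have hc : ∀ i : Fin 2, Measurable (fun θ => a θ i) := by
    intro i
    have h1 : Continuous (fun v : E 2 => v i) := by fun_prop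
    exact h1.measurable.comp hm
  have hn : ∀ v : E 2, v 0 ^ 2 + v 1 ^ 2 = ‖v‖ ^ 2 := by
    intro v
    rw [EuclideanSpace.norm_sq_eq, Fin.sum_univ_two, Real.norm_eq_abs, Real.norm_eq_abs, sq_abs,
      sq_abs]
  have hcb : ∀ i : Fin 2, ∀ᵐ θ ∂(sg 2), |a θ i| ≤ 1 := by
    intro i
    filter_upwards [hb] with θ hθ
    have h1 := hn (a θ)
    have h2 : ‖a θ‖ ^ 2 ≤ 1 := pow_le_one₀ (norm_nonneg _) hθ
    rw [← sq_le_one_iff_abs_le_one]
    fin_cases i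
    · show (a θ) 0 ^ 2 ≤ 1
      nlinarith [sq_nonneg ((a θ) 1)]
    · show (a θ) 1 ^ 2 ≤ 1
      nlinarith [sq_nonneg ((a θ) 0)]
  have b0 := bes _ (hc 0) (hcb 0)
  have b1 := bes _ (hc 1) (hcb 1)
  have hi : ∀ i : Fin 2, Integrable (fun θ : Sph 2 => a θ i ^ 2) (sg 2) := by
    intro i
    refine Integrable.of_bound ((hc i).pow_const 2).aestronglyMeasurable 1 ?_
    filter_upwards [hcb i] with θ hθ
    rw [Real.norm_eq_abs, abs_pow]
    exact pow_le_one₀ (abs_nonneg _) hθ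
  have hs : ∫ θ, a θ 0 ^ 2 ∂(sg 2) + ∫ θ, a θ 1 ^ 2 ∂(sg 2) ≤ 1 := by
    rw [← integral_add (hi 0) (hi 1)]
    have h2 : ∫ θ : Sph 2, (a θ 0 ^ 2 + a θ 1 ^ 2) ∂(sg 2) ≤ ∫ θ : Sph 2, (1 : ℝ) ∂(sg 2) := by
      refine integral_mono_ae ((hi 0).add (hi 1)) (integrable_const _) ?_
      filter_upwards [hb] with θ hθ
      show a θ 0 ^ 2 + a θ 1 ^ 2 ≤ 1
      rw [hn]
      exact pow_le_one₀ (norm_nonneg _) hθ
    simpa using h2
  set x := ∫ θ : Sph 2, (θ : E 2) 0 * a θ 0 ∂(sg 2)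
  set y := ∫ θ : Sph 2, (θ : E 2) 1 * a θ 1 ∂(sg 2)
  set z := ∫ θ : Sph 2, (θ : E 2) 0 * a θ 1 ∂(sg 2)
  set w := ∫ θ : Sph 2, (θ : E 2) 1 * a θ 0 ∂(sg 2)
  have hh : |x * y - z * w| ≤ 1 / 4 := by
    rw [abs_le]
    constructor
    · nlinarith [sq_nonneg (x + y), sq_nonneg (z - w)]
    · nlinarith [sq_nonneg (x - y), sq_nonneg (z + w)]
  linarith

theorem norm_Ax (θ : Sph 2) (w : E 2) : ‖Ax θ w‖ = ‖w‖ := by
  have h1 : ‖Ax θ w‖ ^ 2 = ‖w‖ ^ 2 := by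
    rw [EuclideanSpace.norm_sq_eq, EuclideanSpace.norm_sq_eq, Fin.sum_univ_two, Fin.sum_univ_two]
    simp only [Real.norm_eq_abs, sq_abs]
    unfold Ax Jr
    simp only [PiLp.inner_apply, Fin.sum_univ_two]
    simp
    have := sq_sum θ
    linear_combination (w 0 ^ 2 + w 1 ^ 2) * this
  exact (sq_eq_sq₀ (norm_nonneg _) (norm_nonneg _)).1 h1

theorem k_near {N L : ℕ} (D : Dat N L) (w : E 2) (hw : ∀ j, ‖w‖ < D.ρ j) :
    D.k w = D.ka * w 1 := by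
  unfold Dat.k
  rw [Finset.sum_eq_zero, add_zero]
  intro j _
  by_cases h0 : w = 0
  · have h1 : D.m0 j * w 1 + ∑ i, D.m j i * Mc (D.t i) w = 0 := by
      subst h0
      simp [Mc]
    rw [h1, mul_zero]
  · have h1 : 0 < ‖w‖ := norm_pos_iff.2 h0
    have h2 : 1 - D.ρ j / ‖w‖ ≤ 0 := by
      rw [sub_nonpos, le_div_iff₀ h1, one_mul]
      exact (hw j).le
    rw [max_eq_left h2, zero_mul]

theorem fd {N L : ℕ} (D : Dat N L) (z : E 2) (hz : ∀ j, ‖z‖ < D.ρ j) (θ θ' : Sph 2) :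
    fderiv ℝ (fun w => D.k (Ax θ w)) z (θ' : E 2) =
      D.ka * ((θ' : E 2) 1 * (θ : E 2) 0 - (θ' : E 2) 0 * (θ : E 2) 1) := by
  have h1 : (fun w => D.k (Ax θ w)) =ᶠ[𝓝 z]
      (D.ka • (innerSL ℝ (Jr (θ : E 2)) : E 2 →L[ℝ] ℝ) : E 2 →L[ℝ] ℝ) := by
    have h2 : ∀ᶠ w : E 2 in 𝓝 z, ∀ j, ‖w‖ < D.ρ j := by
      rw [eventually_all]
      intro j
      exact (continuous_norm.tendsto z).eventually (eventually_lt_nhds (hz j))
    filter_upwards [h2] with w hw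
    rw [k_near D (Ax θ w) (by intro j; rw [norm_Ax]; exact hw j)]
    simp only [ContinuousLinearMap.smul_apply, innerSL_apply_apply, smul_eq_mul]
    rw [real_inner_comm]
    rfl
  rw [h1.fderiv_eq, ContinuousLinearMap.fderiv]
  simp only [ContinuousLinearMap.smul_apply, innerSL_apply_apply, smul_eq_mul]
  congr 1
  unfold Jr
  simp only [PiLp.inner_apply, Fin.sum_univ_two]
  simp
  ring

theorem main : S_JZER := by
  intro N L D hρ ht hka z hz a hm hb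
  have := SPH.prob 1
  have hia : Integrable a (sg 2) := Integrable.of_bound hm.aestronglyMeasurable 1 hb
  have hc : ∀ i : Fin 2, Measurable (fun θ => a θ i) := by
    intro i
    have h1 : Continuous (fun v : E 2 => v i) := by fun_prop
    exact h1.measurable.comp hm
  have hco : ∀ (i : Fin 2) (θ : Sph 2), |(θ : E 2) i| ≤ 1 := by
    intro i θ
    have := sq_sum θ
    rw [← sq_le_one_iff_abs_le_one]
    fin_cases i
    · show (θ : E 2) 0 ^ 2 ≤ 1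
      nlinarith [sq_nonneg ((θ : E 2) 1)]
    · show (θ : E 2) 1 ^ 2 ≤ 1
      nlinarith [sq_nonneg ((θ : E 2) 0)]
  have hab : ∀ i : Fin 2, ∀ v : E 2, |v i| ≤ ‖v‖ := by
    intro i v
    have := PiLp.norm_apply_le v i
    rwa [Real.norm_eq_abs] at this
  have hiv : ∀ i : Fin 2, Integrable (fun θ : Sph 2 => (θ : E 2) i • a θ) (sg 2) := by
    intro i
    refine Integrable.of_bound ((cont_co i).measurable.smul hm).aestronglyMeasurable 1 ?_
    filter_upwards [hb] with θ hθ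
    rw [norm_smul, Real.norm_eq_abs]
    exact mul_le_one₀ (hco i θ) (norm_nonneg _) hθ
  have his : ∀ i j : Fin 2, Integrable (fun θ : Sph 2 => (θ : E 2) i * a θ j) (sg 2) := by
    intro i j
    refine Integrable.of_bound ((cont_co i).measurable.mul (hc j)).aestronglyMeasurable 1 ?_
    filter_upwards [hb] with θ hθ
    rw [norm_mul, Real.norm_eq_abs, Real.norm_eq_abs]
    exact mul_le_one₀ (hco i θ) (abs_nonneg _) ((hab j _).trans hθ)
  set P : E 2 := ∫ θ : Sph 2, (θ : E 2) 0 • a θ ∂(sg 2) with hP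
  set Q : E 2 := ∫ θ : Sph 2, (θ : E 2) 1 • a θ ∂(sg 2) with hQ
  have hcoord : ∀ i j : Fin 2, (∫ θ : Sph 2, (θ : E 2) i • a θ ∂(sg 2)) j =
      ∫ θ : Sph 2, (θ : E 2) i * a θ j ∂(sg 2) := by
    intro i j
    have := (EuclideanSpace.proj j : E 2 →L[ℝ] ℝ).integral_comp_comm (hiv i)
    simpa using this.symm
  have hin : ∀ θ : Sph 2, (∫ θ' : Sph 2, (fderiv ℝ (fun w => D.k (Ax θ w)) z (θ' : E 2)) • a θ'
      ∂(sg 2)) = D.ka • ((θ : E 2) 0 • Q - (θ : E 2) 1 • P) := by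
    intro θ
    have h1 : ∀ θ' : Sph 2, (fderiv ℝ (fun w => D.k (Ax θ w)) z (θ' : E 2)) • a θ' =
        D.ka • ((θ : E 2) 0 • ((θ' : E 2) 1 • a θ') - (θ : E 2) 1 • ((θ' : E 2) 0 • a θ')) := by
      intro θ'
      rw [fd D z hz θ θ', smul_smul, smul_smul, ← sub_smul, smul_smul]
      congr 1
      ring
    simp_rw [h1]
    have g1 : Integrable (fun θ' : Sph 2 => (θ : E 2) 0 • ((θ' : E 2) 1 • a θ')) (sg 2) :=
      Integrable.smul ((θ : E 2) 0) (hiv 1)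
    have g2 : Integrable (fun θ' : Sph 2 => (θ : E 2) 1 • ((θ' : E 2) 0 • a θ')) (sg 2) :=
      Integrable.smul ((θ : E 2) 1) (hiv 0)
    rw [integral_smul, integral_sub g1 g2, integral_smul, integral_smul]
  unfold Jk
  simp_rw [hin]
  have hdt : ∀ θ : Sph 2, dt (D.ka • ((θ : E 2) 0 • Q - (θ : E 2) 1 • P)) (a θ) =
      (D.ka * Q 0) * ((θ : E 2) 0 * a θ 1) + (-(D.ka * P 0)) * ((θ : E 2) 1 * a θ 1) +
      (-(D.ka * Q 1)) * ((θ : E 2) 0 * a θ 0) + (D.ka * P 1) * ((θ : E 2) 1 * a θ 0) := by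
    intro θ
    unfold dt
    simp only [PiLp.smul_apply, PiLp.sub_apply, smul_eq_mul]
    ring
  simp_rw [hdt]
  have e1 : Integrable (fun θ : Sph 2 => (D.ka * Q 0) * ((θ : E 2) 0 * a θ 1) +
      (-(D.ka * P 0)) * ((θ : E 2) 1 * a θ 1)) (sg 2) :=
    ((his 0 1).const_mul _).add ((his 1 1).const_mul _)
  have e2 : Integrable (fun θ : Sph 2 => (D.ka * Q 0) * ((θ : E 2) 0 * a θ 1) +
      (-(D.ka * P 0)) * ((θ : E 2) 1 * a θ 1) + (-(D.ka * Q 1)) * ((θ : E 2) 0 * a θ 0)) (sg 2) :=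
    e1.add ((his 0 0).const_mul _)
  rw [integral_add e2 ((his 1 0).const_mul _), integral_add e1 ((his 0 0).const_mul _),
    integral_add ((his 0 1).const_mul _) ((his 1 1).const_mul _), integral_const_mul,
    integral_const_mul, integral_const_mul, integral_const_mul]
  have hb4 := dt_le a hm hb
  rw [← hcoord, ← hcoord, ← hcoord, ← hcoord, ← hP, ← hQ] at hb4 ⊢
  have h5 : D.ka * Q 0 * P 1 + -(D.ka * P 0) * Q 1 + -(D.ka * Q 1) * P 0 + D.ka * P 1 * Q 0 =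
      (-(2 * D.ka)) * (P 0 * Q 1 - P 1 * Q 0) := by ring
  rw [h5, abs_mul, abs_neg, abs_mul, abs_two]
  nlinarith [abs_nonneg (P 0 * Q 1 - P 1 * Q 0), abs_nonneg D.ka]

end Pool.Agent.N300.P1_JZER
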