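import Pool.Agent.N709.ST.Stm

/-!
# The colouring of the free amalgam
-/

set_option autoImplicit false

namespace Pool.Agent.N300.ST

open Pool.Agent.N709.ST

open Classical in
/-- the colour of the image of a subset of `B` -/
noncomputable def val (t : ℕ) (cB cA : Finset ℕ → ℕ) (p : ℕ → ℕ) (C : Finset ℕ) (K : ℕ) (S' : Finset ℕ) : ℕ :=
  if h : ∃ T ⊆ C, T.card = t ∧ cB S' = cB T then cA (h.choose.image p) else K + 2 * cB S'

theorem val_pos {t : ℕ} {cB cA : Finset ℕ → ℕ} {p : ℕ → ℕ} {C : Finset ℕ} {K : ℕ} (hp : Iso t cB cA p C)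
    {S' T : Finset ℕ} (hT : T ⊆ C) (hTc : T.card = t) (h : cB S' = cB T) :
    val t cB cA p C K S' = cA (T.image p) := by
  have hex : ∃ T ⊆ C, T.card = t ∧ cB S' = cB T := ⟨T, hT, hTc, h⟩
  unfold val
  rw [dif_pos hex]
  obtain ⟨h1, h2, h3⟩ := hex.choose_spec
  exact (hp.2 _ h1 _ hT h2 hTc).2 (h3.symm.trans h)

theorem val_neg {t : ℕ} {cB cA : Finset ℕ → ℕ} {p : ℕ → ℕ} {C : Finset ℕ} {K : ℕ}
    {S' : Finset ℕ} (h : ¬ ∃ T ⊆ C, T.card = t ∧ cB S' = cB T) :
    val t cB cA p C K S' = K + 2 * cB S' := by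
  unfold val
  rw [dif_neg h]

open Classical in
/-- the colouring -/
noncomputable def col (t : ℕ) (cB cA : Finset ℕ → ℕ) (p f : ℕ → ℕ) (C B A : Finset ℕ) (K : ℕ) (S : Finset ℕ) : ℕ :=
  if S ⊆ A then cA S else if S ⊆ B.image f then val t cB cA p C K (B.filter (fun x => f x ∈ S))
    else K + 2 * Encodable.encode S + 1

theorem freecol : FreeCol := by
  classical
  intro t cB cA p C B A hCB hpA hp
  -- the bounds
  obtain ⟨N, hN⟩ : ∃ N : ℕ, ∀ x ∈ A, x < N :=
    ⟨A.sup id + 1, fun x hx => Nat.lt_succ_of_le (Finset.le_sup (f := id) hx)⟩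
  obtain ⟨K, hK⟩ : ∃ K : ℕ, ∀ S ⊆ A, cA S < K :=
    ⟨A.powerset.sup cA + 1, fun S hS => Nat.lt_succ_of_le (Finset.le_sup (f := cA) (Finset.mem_powerset.2 hS))⟩
  obtain ⟨f, hf⟩ : ∃ f : ℕ → ℕ, f = fun x => if x ∈ C then p x else x + N := ⟨_, rfl⟩
  have hf1 : ∀ x ∈ C, f x = p x := by
    intro x hx
    rw [hf]
    exact if_pos hx
  have hf2 : ∀ x, x ∉ C → f x = x + N := by
    intro x hx
    rw [hf]
    exact if_neg hx
  have hfA : ∀ x ∈ C, f x ∈ A := by
    intro x hx
    rw [hf1 x hx]
    exact hpA (Finset.mem_image_of_mem p hx)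
  have hfA' : ∀ x, x ∉ C → f x ∉ A := by
    intro x hx h
    have := hN _ h
    rw [hf2 x hx] at this
    omega
  have hinj : Function.Injective f := by
    intro x y hxy
    by_cases hx : x ∈ C
    · by_cases hy : y ∈ C
      · rw [hf1 x hx, hf1 y hy] at hxy
        exact hp.1 hx hy hxy
      · exact absurd (hxy ▸ hfA x hx) (hfA' y hy)
    · by_cases hy : y ∈ C
      · exact absurd (hxy ▸ hfA y hy) (hfA' x hx)
      · rw [hf2 x hx, hf2 y hy] at hxy
        omega
  have hfil : ∀ S' ⊆ B, B.filter (fun x => f x ∈ S'.image f) = S' := by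
    intro S' hS'
    ext x
    rw [Finset.mem_filter]
    constructor
    · rintro ⟨_, h⟩
      obtain ⟨y, hy, hxy⟩ := Finset.mem_image.1 h
      rwa [← hinj hxy]
    · intro h
      exact ⟨hS' h, Finset.mem_image_of_mem f h⟩
  have himp : ∀ S' ⊆ C, S'.image f = S'.image p := by
    intro S' hS'
    exact Finset.image_congr fun x hx => hf1 x (hS' hx)
  have hsub : ∀ S' : Finset ℕ, S'.image f ⊆ A → S' ⊆ C := by
    intro S' h x hx
    by_contra hxC
    exact hfA' x hxC (h (Finset.mem_image_of_mem f hx))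
  -- the value on images
  have hval : ∀ S' ⊆ B, S'.card = t → col t cB cA p f C B A K (S'.image f) = val t cB cA p C K S' := by
    intro S' hS' hc
    unfold col
    by_cases h : S'.image f ⊆ A
    · have hC := hsub S' h
      rw [if_pos h, val_pos hp hC hc rfl, himp S' hC]
    · rw [if_neg h, if_pos (Finset.image_subset_image hS'), hfil S' hS']
  have hlt : ∀ T ⊆ C, cA (T.image p) < K := fun T hT => hK _ ((Finset.image_subset_image hT).trans hpA)
  refine ⟨col t cB cA p f C B A K, f, hf1, ⟨fun x _ y _ h => hinj h, ?_⟩, ?_, ?_, ?_, ?_⟩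
  · intro S hS S' hS' hc hc'
    rw [hval S hS hc, hval S' hS' hc']
    by_cases h1 : ∃ T ⊆ C, T.card = t ∧ cB S = cB T
    · obtain ⟨T, hT, hTc, hTe⟩ := h1
      rw [val_pos hp hT hTc hTe]
      by_cases h2 : ∃ T ⊆ C, T.card = t ∧ cB S' = cB T
      · obtain ⟨T', hT', hTc', hTe'⟩ := h2
        rw [val_pos hp hT' hTc' hTe', hp.2 T hT T' hT' hTc hTc', hTe, hTe']
      · rw [val_neg h2]
        constructor
        · intro h
          have := hlt T hT
          omega
        · intro h
          exact absurd ⟨T, hT, hTc, h.symm.trans hTe⟩ h2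
    · rw [val_neg h1]
      by_cases h2 : ∃ T ⊆ C, T.card = t ∧ cB S' = cB T
      · obtain ⟨T', hT', hTc', hTe'⟩ := h2
        rw [val_pos hp hT' hTc' hTe']
        constructor
        · intro h
          have := hlt T' hT'
          omega
        · intro h
          exact absurd ⟨T', hT', hTc', h.trans hTe'⟩ h1
      · rw [val_neg h2]
        omega
  · ext a
    rw [Finset.mem_inter, Finset.mem_image, Finset.mem_image]
    constructor
    · rintro ⟨ha, x, _, rfl⟩
      by_cases hx : x ∈ C
      · exact ⟨x, hx, (hf1 x hx).symm⟩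
      · exact absurd ha (hfA' x hx)
    · rintro ⟨x, hx, rfl⟩
      exact ⟨hpA (Finset.mem_image_of_mem p hx), x, hCB hx, hf1 x hx⟩
  · intro S hS _
    unfold col
    rw [if_pos hS]
  · intro S' hS' hc' _ S hS hc h
    rw [hval S' hS' hc'] at h
    have h1 : col t cB cA p f C B A K S = cA S := by
      unfold col
      rw [if_pos hS]
    rw [h1] at h
    by_cases h2 : ∃ T ⊆ C, T.card = t ∧ cB S' = cB T
    · obtain ⟨T, hT, hTc, hTe⟩ := h2
      rw [val_pos hp hT hTc hTe] at h
      exact ⟨T, hT, hTc, hTe, h.symm⟩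
    · rw [val_neg h2] at h
      have := hK S hS
      omega
  · intro S hS hc hSA hSB S₁ hS₁ hc₁ h
    have h1 : col t cB cA p f C B A K S = K + 2 * Encodable.encode S + 1 := by
      unfold col
      rw [if_neg hSA, if_neg hSB]
    rw [h1] at h
    by_cases h2 : S₁ ⊆ A
    · have h3 : col t cB cA p f C B A K S₁ = cA S₁ := by
        unfold col
        rw [if_pos h2]
      rw [h3] at h
      have := hK S₁ h2
      omega
    · by_cases h3 : S₁ ⊆ B.image f
      · obtain ⟨S', hS', rfl⟩ := Finset.subset_image_iff.1 h3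
        have hc' : S'.card = t := by
          rw [← hc₁, Finset.card_image_of_injective _ hinj]
        have hS'' : S' ⊆ B := by exact_mod_cast hS'
        rw [hval S' hS'' hc'] at h
        by_cases h4 : ∃ T ⊆ C, T.card = t ∧ cB S' = cB T
        · obtain ⟨T, hT, hTc, hTe⟩ := h4
          rw [val_pos hp hT hTc hTe] at h
          have := hlt T hT
          omega
        · rw [val_neg h4] at h
          omega
      · have h4 : col t cB cA p f C B A K S₁ = K + 2 * Encodable.encode S₁ + 1 := by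
          unfold col
          rw [if_neg h2, if_neg h3]
        rw [h4] at h
        exact Encodable.encode_injective (by omega)

end Pool.Agent.N300.ST
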